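import Pool.Agent.H865R3.DerAut5

set_option autoImplicit false

/-!
Lie ring isomorphisms from the Lie ring of derivations of a polynomial ring in infinitely many
variables onto the Lie ring of derivations of an arbitrary domain. The arguments are those of
`Pool.Agent.H865R3.DerAut2`, `DerAut3`, `DerAut4` (automorphisms that are linear over the field),
carried out for a map that is only additive and has another ring as its target.
-/

namespace Pool.Agent.H39.DerRing

open MvPolynomial Pool.Agent.H865R3.DerAut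

variable {R B : Type*} [CommRing R] [CommRing B] [Algebra R B]

theorem lie_smulG (D E : Derivation R B B) (a : B) : ⁅D, a • E⁆ = a • ⁅D, E⁆ + D a • E := by
  refine Derivation.ext fun x => ?_
  simp only [Derivation.commutator_apply, Derivation.coe_smul, Pi.smul_apply, smul_eq_mul,
    Derivation.leibniz, Derivation.coe_add, Pi.add_apply]
  ring

theorem smul_lieG (D E : Derivation R B B) (a : B) : ⁅a • D, E⁆ = a • ⁅D, E⁆ - E a • D := by
  refine Derivation.ext fun x => ?_
  simp only [Derivation.commutator_apply, Derivation.coe_smul, Pi.smul_apply, smul_eq_mul,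
    Derivation.leibniz, Derivation.coe_sub, Pi.sub_apply]
  ring

theorem cancelG [IsDomain B] {D : Derivation R B B} (hD : D ≠ 0) {a b : B}
    (h : a • D = b • D) : a = b := by
  by_contra hab
  apply hD
  refine Derivation.ext fun x => ?_
  have h1 := congrArg (fun E : Derivation R B B => E x) h
  simp only [Derivation.coe_smul, Pi.smul_apply, smul_eq_mul] at h1
  have h2 : (a - b) * D x = 0 := by rw [sub_mul, h1, sub_self]
  rcases mul_eq_zero.1 h2 with h3 | h3
  · exact absurd (sub_eq_zero.1 h3) hab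
  · simpa using h3

variable {F : Type*} [Field F] {σ : Type*}

/-- a map preserving brackets -/
def Br (ψ : W F σ ≃+ Derivation R B B) : Prop := ∀ D E : W F σ, ψ ⁅D, E⁆ = ⁅ψ D, ψ E⁆

/-- `w` is sent by `ψ` to a multiple of `ψ(∂_i)` -/
def IsM (ψ : W F σ ≃+ Derivation R B B) (i : σ) (w : W F σ) : Prop :=
  ∃ a : B, ψ w = a • ψ (P i)

variable {ψ : W F σ ≃+ Derivation R B B} {i : σ}

theorem IsM.add {v w : W F σ} (hv : IsM ψ i v) (hw : IsM ψ i w) : IsM ψ i (v + w) := by
  obtain ⟨a, ha⟩ := hv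
  obtain ⟨b, hb⟩ := hw
  refine ⟨a + b, ?_⟩
  rw [map_add, ha, hb, add_smul]

theorem IsM.neg {v : W F σ} (hv : IsM ψ i v) : IsM ψ i (-v) := by
  obtain ⟨a, ha⟩ := hv
  refine ⟨-a, ?_⟩
  rw [map_neg, ha]
  refine Derivation.ext fun x => ?_
  simp

theorem IsM.sub {v w : W F σ} (hv : IsM ψ i v) (hw : IsM ψ i w) : IsM ψ i (v - w) := by
  rw [sub_eq_add_neg]; exact hv.add hw.neg

/-- `M` is stable under the centraliser of `∂_i` -/
theorem IsM.lie (hψ : Br ψ) {E w : W F σ} (hE : ⁅E, (P i : W F σ)⁆ = 0) (hw : IsM ψ i w) :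
    IsM ψ i ⁅E, w⁆ := by
  obtain ⟨a, ha⟩ := hw
  refine ⟨ψ E a, ?_⟩
  rw [hψ, ha, lie_smulG, ← hψ, hE, map_zero, smul_zero, zero_add]

/-- the property `S(p,q)` -/
def S (ψ : W F σ ≃+ Derivation R B B) (i l : σ) (p q : A F σ) : Prop :=
  ∀ g : A F σ, P i g = 0 → P l g = 0 →
    IsM ψ i ((g * p) • (P l : W F σ) - (g * q) • (P i : W F σ))

theorem S_step (hψ : Br ψ) {l : σ} {p q : A F σ} (h : S ψ i l p q) :
    S ψ i l (P i p) (P i q) := by
  intro g hgi hgl
  have h1 := (h g hgi hgl).lie hψ (E := P i) (lie_self _)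
  have h2 : ⁅(P i : W F σ), (g * p) • (P l : W F σ) - (g * q) • (P i : W F σ)⁆ =
      (g * P i p) • (P l : W F σ) - (g * P i q) • (P i : W F σ) := by
    rw [lie_sub', lie_smul', lie_smul', P_comm, lie_self, Derivation.leibniz, Derivation.leibniz,
      hgi]
    simp
  rwa [h2] at h1

theorem S_last (hψ : Br ψ) {l : σ} : ∀ (n : ℕ) (p q : A F σ), S ψ i l p q → (p ≠ 0 ∨ q ≠ 0) →
    (fun x => P i x)^[n] p = 0 → (fun x => P i x)^[n] q = 0 →
    ∃ p' q' : A F σ, S ψ i l p' q' ∧ (p' ≠ 0 ∨ q' ≠ 0) ∧ P i p' = 0 ∧ P i q' = 0 := by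
  intro n
  induction n with
  | zero =>
    intro p q _ h h1 h2
    simp only [Function.iterate_zero, id_eq] at h1 h2
    exact absurd h (by simp [h1, h2])
  | succ n ih =>
    intro p q hS h h1 h2
    rw [Function.iterate_succ_apply] at h1 h2
    by_cases hc : P i p ≠ 0 ∨ P i q ≠ 0
    · exact ih _ _ (S_step hψ hS) hc h1 h2
    · push Not at hc
      exact ⟨p, q, hS, h, hc.1, hc.2⟩

theorem S_exists (hψ : Br ψ) {l : σ} {p q : A F σ} (hS : S ψ i l p q) (h : p ≠ 0 ∨ q ≠ 0) :
    ∃ p' q' : A F σ, S ψ i l p' q' ∧ (p' ≠ 0 ∨ q' ≠ 0) ∧ P i p' = 0 ∧ P i q' = 0 := by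
  obtain ⟨m, hm⟩ := nilp i p
  obtain ⟨n, hn⟩ := nilp i q
  have hz : ∀ m : ℕ, (fun x => P i x)^[m] (0 : A F σ) = 0 := by
    intro m
    induction m with
    | zero => simp
    | succ m ihm => simp only [Function.iterate_succ_apply, map_zero, ihm]
  apply S_last hψ (m + n) p q hS h
  · rw [add_comm m n, Function.iterate_add_apply, hm, hz]
  · rw [Function.iterate_add_apply, hn, hz]

/-- the property used at the end of step 1 -/
def RR (ψ : W F σ ≃+ Derivation R B B) (i l : σ) (c : A F σ) : Prop :=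
  ∀ g : A F σ, P i g = 0 → P l g = 0 → IsM ψ i ((g * c) • (P i : W F σ))

theorem R_of_S (hψ : Br ψ) {l : σ} (hl : l ≠ i) {p q : A F σ} (hS : S ψ i l p q)
    (h : p ≠ 0 ∨ q ≠ 0)
    (hp : P i p = 0) (hq : P i q = 0) : ∃ c : A F σ, c ≠ 0 ∧ P i c = 0 ∧ RR ψ i l c := by
  by_cases hp0 : p = 0
  · refine ⟨q, by simpa [hp0] using h, hq, ?_⟩
    intro g hgi hgl
    have := (hS g hgi hgl).neg
    simpa [hp0] using this
  · refine ⟨p, hp0, hp, ?_⟩
    intro g hgi hgl
    have h1 := ((hS g hgi hgl).lie hψ (E := (X l : A F σ) • (P i : W F σ))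
      (comm_smul_P (P_X_ne hl))).neg
    have h2 : -⁅(X l : A F σ) • (P i : W F σ), (g * p) • (P l : W F σ) - (g * q) • (P i : W F σ)⁆ =
        (g * p) • (P i : W F σ) := by
      rw [lie_sub', lie_smul', lie_smul', smul_lie', smul_lie', P_comm, lie_self, P_X_self,
        P_X_ne hl]
      simp only [Derivation.coe_smul, Pi.smul_apply, Derivation.leibniz, hp, hq, hgi]
      simp
    rwa [h2] at h1

theorem nonconst_of_R [Infinite σ] {l : σ} {c : A F σ} (hc : c ≠ 0) (hci : P i c = 0)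
    (hR : RR ψ i l c) : ∃ c' : A F σ, P i c' = 0 ∧ (∃ j, P j c' ≠ 0) ∧
      IsM ψ i (c' • (P i : W F σ)) := by
  classical
  by_cases h : ∃ j, P j c ≠ 0
  · refine ⟨c, hci, h, ?_⟩
    have := hR 1 (by simp) (by simp)
    simpa using this
  · push Not at h
    obtain ⟨m, hm⟩ := Infinite.exists_notMem_finset ({i, l} : Finset σ)
    simp only [Finset.mem_insert, Finset.mem_singleton, not_or] at hm
    refine ⟨X m * c, ?_, ⟨m, ?_⟩, hR (X m) (P_X_ne hm.1) (P_X_ne hm.2)⟩
    · rw [Derivation.leibniz, hci, P_X_ne hm.1]; simp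
    · rw [Derivation.leibniz, h m, P_X_self]; simpa using hc

theorem exists_R_of_P (hψ : Br ψ) : ∀ (n : ℕ) (b : A F σ), IsM ψ i (b • (P i : W F σ)) →
    P i b ≠ 0 →
    (fun x => P i x)^[n] b = 0 → ∃ c : A F σ, c ≠ 0 ∧ P i c = 0 ∧ ∀ l, RR ψ i l c := by
  intro n
  induction n with
  | zero =>
    intro b _ h1 h2
    simp only [Function.iterate_zero, id_eq] at h2
    rw [h2] at h1; simp at h1
  | succ n ih =>
    intro b hb h1 h2
    rw [Function.iterate_succ_apply] at h2
    have key : ∀ g : A F σ, P i g = 0 → IsM ψ i ((g * P i b) • (P i : W F σ)) := by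
      intro g hg
      have h3 := hb.lie hψ (E := g • (P i : W F σ)) (comm_smul_P hg)
      have h4 : ⁅g • (P i : W F σ), b • (P i : W F σ)⁆ = (g * P i b) • (P i : W F σ) := by
        rw [smul_lie', lie_smul', lie_self]
        simp [hg, smul_smul]
      rwa [h4] at h3
    by_cases h : P i (P i b) = 0
    · exact ⟨P i b, h1, h, fun l g hg _ => key g hg⟩
    · refine ih (P i b) ?_ h h2
      have := key 1 (by simp)
      simpa using this

theorem psiP_ne_zero (ψ : W F σ ≃+ Derivation R B B) (i : σ) : ψ (P i) ≠ 0 := by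
  intro h
  exact P_ne_zero (F := F) i (ψ.injective (h.trans (map_zero ψ).symm))

/-- **Step 1**: some nonconstant `f ∈ ker ∂_i` has `ψ(f ∂_i)` proportional to `ψ(∂_i)`. -/
theorem step1 [CharZero F] [Infinite σ] [IsDomain B] (hψ : Br ψ) (i : σ) :
    ∃ c : A F σ, P i c = 0 ∧ (∃ j, P j c ≠ 0) ∧ IsM ψ i (c • (P i : W F σ)) := by
  classical
  by_cases hcase : ∃ (w : W F σ) (l : σ) (f : A F σ), IsM ψ i w ∧ l ≠ i ∧ P i f = 0 ∧ P l f = 0 ∧
      (P i (w f) ≠ 0 ∨ P l (w f) ≠ 0)
  · obtain ⟨w, l, f, hw, hl, hfi, hfl, hne⟩ := hcase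
    have hS : S ψ i l (P i (w f)) (P l (w f)) := by
      intro g hgi hgl
      rw [← ham_identity w hfi hfl hgi hgl]
      have hfg : P i (f * g) = 0 := by rw [Derivation.leibniz, hfi, hgi]; simp
      exact ((hw.lie hψ (comm_smul_P hgi)).lie hψ (comm_smul_P hfi)).sub
        ((hw.lie hψ (comm_smul_P hfg)).lie hψ (lie_self _))
    obtain ⟨p, q, hS', hpq, hp, hq⟩ := S_exists hψ hS hne
    obtain ⟨c, hc, hci, hR⟩ := R_of_S hψ hl hS' hpq hp hq
    exact nonconst_of_R hc hci hR
  · push Not at hcase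
    -- every `w ∈ M` is a multiple of `∂_i`
    have hzero : ∀ w : W F σ, IsM ψ i w → ∀ l, l ≠ i → w (X l) = 0 := by
      intro w hw l hl
      obtain ⟨j, hj⟩ := Infinite.exists_notMem_finset ({i, l} : Finset σ)
      simp only [Finset.mem_insert, Finset.mem_singleton, not_or] at hj
      obtain ⟨hji, hjl⟩ := hj
      have e1 : P l (w (X j)) = 0 :=
        (hcase w l (X j) hw hl (P_X_ne hji) (P_X_ne hjl)).2
      have e2 : ∀ a : A F σ, P i a = 0 → P l (a * P j (w (X j)) - w a) = 0 := by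
        intro a ha
        have h1 := (hcase ⁅a • (P j : W F σ), w⁆ l (X j) (hw.lie hψ (comm_smul_P ha)) hl
          (P_X_ne hji) (P_X_ne hjl)).2
        rw [Derivation.commutator_apply] at h1
        simp only [Derivation.coe_smul, Pi.smul_apply, P_X_self, smul_eq_mul, mul_one] at h1
        exact h1
      have e3 := e2 (X l) (P_X_ne hl)
      have e4 := e2 (X l * X l) (by rw [Derivation.leibniz, P_X_ne hl]; simp)
      have e5 : P l (P j (w (X j))) = 0 := by rw [P_comm_apply, e1, map_zero]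
      rw [map_sub, Derivation.leibniz, e5, P_X_self] at e3
      simp only [map_sub, Derivation.leibniz, e5, P_X_self, map_add, smul_eq_mul] at e4
      simp only [smul_eq_mul, mul_one, mul_zero, zero_add] at e3 e4
      have e6 : (2 : A F σ) * w (X l) = 0 := by
        linear_combination (-1 : A F σ) * e4 + 2 * X l * e3
      rcases mul_eq_zero.1 e6 with h | h
      · exact absurd h two_ne_zero
      · exact h
    have hform : ∀ w : W F σ, IsM ψ i w → w = w (X i) • (P i : W F σ) := by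
      intro w hw
      apply MvPolynomial.derivation_ext
      intro l
      by_cases hl : l = i
      · subst hl
        simp
      · rw [hzero w hw l hl]
        simp [pderiv_X_of_ne hl]
    obtain ⟨k⟩ : Nonempty σ := inferInstance
    have hD : ψ (P i) ≠ 0 := psiP_ne_zero ψ i
    have hb : ∃ b : B, ψ (P i) b ≠ 0 := by
      by_contra hc
      push Not at hc
      exact hD (Derivation.ext fun x => by simpa using hc x)
    obtain ⟨b, hb⟩ := hb
    set w := ψ.symm (b • ψ (P i)) with hw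
    have hwb : ψ w = b • ψ (P i) := by rw [hw, AddEquiv.apply_symm_apply]
    have hwM : IsM ψ i w := ⟨b, hwb⟩
    set a := w (X i) with ha
    have hwa : w = a • (P i : W F σ) := hform w hwM
    have hMa : IsM ψ i (a • (P i : W F σ)) := by rw [← hwa]; exact hwM
    have hai : P i a ≠ 0 := by
      intro h
      have h1 : ⁅(P i : W F σ), w⁆ = 0 := by
        rw [hwa, lie_smul', lie_self, h]; simp
      have h2 := congrArg ψ h1
      rw [hψ, hwb, lie_smulG, lie_self, smul_zero, zero_add, map_zero] at h2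
      exact hb (cancelG hD (by rw [h2, zero_smul]))
    obtain ⟨n, hn⟩ := nilp i a
    obtain ⟨c, hc, hci, hR⟩ := exists_R_of_P hψ n a hMa hai hn
    exact nonconst_of_R hc hci (hR k)

/-- `Q(p)`: the ideal of `ker ∂_i` generated by `p` is sent to multiples of `ψ(∂_i)` -/
def Q (ψ : W F σ ≃+ Derivation R B B) (i : σ) (p : A F σ) : Prop :=
  P i p = 0 ∧ ∀ g : A F σ, P i g = 0 → IsM ψ i ((g * p) • (P i : W F σ))

theorem Q_of_nonconst (hψ : Br ψ) {c : A F σ} (hc : P i c = 0) {j : σ}
    (hM : IsM ψ i (c • (P i : W F σ))) : Q ψ i (P j c) := by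
  refine ⟨by rw [P_comm_apply, hc, map_zero], fun g hg => ?_⟩
  have h1 := hM.lie hψ (E := g • (P j : W F σ)) (comm_smul_P hg)
  have h2 : ⁅g • (P j : W F σ), c • (P i : W F σ)⁆ = (g * P j c) • (P i : W F σ) := by
    rw [smul_lie', lie_smul', P_comm]
    simp [hg, smul_smul]
  rwa [h2] at h1

theorem Q_step (hψ : Br ψ) {p : A F σ} (hQ : Q ψ i p) (l : σ) : Q ψ i (P l p) := by
  refine ⟨by rw [P_comm_apply, hQ.1, map_zero], fun g hg => ?_⟩
  have h1 := (hQ.2 g hg).lie hψ (E := P l) (P_comm l i)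
  have h2 : IsM ψ i ((P l g * p) • (P i : W F σ)) :=
    hQ.2 _ (by rw [P_comm_apply, hg, map_zero])
  have h3 : ⁅(P l : W F σ), (g * p) • (P i : W F σ)⁆ - (P l g * p) • (P i : W F σ) =
      (g * P l p) • (P i : W F σ) := by
    rw [lie_smul', P_comm, Derivation.leibniz]
    refine Derivation.ext fun x => ?_
    simp
    ring
  have h4 := h1.sub h2
  rwa [h3] at h4

theorem Q_iter (hψ : Br ψ) (l : σ) : ∀ (n : ℕ) (p : A F σ), Q ψ i p → p ≠ 0 →
    (fun x => P l x)^[n] p = 0 →
    ∃ p' : A F σ, Q ψ i p' ∧ p' ≠ 0 ∧ P l p' = 0 ∧ ∀ k, P k p = 0 → P k p' = 0 := by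
  intro n
  induction n with
  | zero =>
    intro p _ h1 h2
    simp only [Function.iterate_zero, id_eq] at h2
    exact absurd h2 h1
  | succ n ih =>
    intro p hQ hp h2
    rw [Function.iterate_succ_apply] at h2
    by_cases h : P l p = 0
    · exact ⟨p, hQ, hp, h, fun _ hk => hk⟩
    · obtain ⟨p', h3, h4, h5, h6⟩ := ih _ (Q_step hψ hQ l) h h2
      refine ⟨p', h3, h4, h5, fun k hk => h6 k ?_⟩
      rw [P_comm_apply, hk, map_zero]

theorem Q_finset (hψ : Br ψ) (s : Finset σ) : ∀ (p : A F σ), Q ψ i p → p ≠ 0 →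
    ∃ p' : A F σ, Q ψ i p' ∧ p' ≠ 0 ∧ (∀ l ∈ s, P l p' = 0) ∧ ∀ k, P k p = 0 → P k p' = 0 := by
  classical
  induction s using Finset.induction_on with
  | empty => intro p hQ hp; exact ⟨p, hQ, hp, by simp, fun _ h => h⟩
  | insert a s ha ih =>
    intro p hQ hp
    obtain ⟨p1, h1, h2, h3, h4⟩ := ih p hQ hp
    obtain ⟨n, hn⟩ := nilp a p1
    obtain ⟨p2, h5, h6, h7, h8⟩ := Q_iter hψ a n p1 h1 h2 hn
    refine ⟨p2, h5, h6, ?_, fun k hk => h8 k (h4 k hk)⟩
    intro l hl
    rcases Finset.mem_insert.1 hl with rfl | hl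
    · exact h7
    · exact h8 l (h3 l hl)

/-- **Step 2**: `ψ(f ∂_i)` is proportional to `ψ(∂_i)` for every `f ∈ ker ∂_i`. -/
theorem step2 [CharZero F] [Infinite σ] [IsDomain B] (hψ : Br ψ) (i : σ) {f : A F σ}
    (hf : P i f = 0) : IsM ψ i (f • (P i : W F σ)) := by
  classical
  obtain ⟨c, hc, ⟨j, hj⟩, hM⟩ := step1 hψ i
  have hQ : Q ψ i (P j c) := Q_of_nonconst hψ hc hM
  obtain ⟨p, h1, h2, h3, h4⟩ := Q_finset hψ (P j c).vars _ hQ hj
  have h5 : ∀ l, P l p = 0 := by
    intro l
    by_cases hl : l ∈ (P j c : A F σ).vars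
    · exact h3 l hl
    · exact h4 l (pderiv_eq_zero_of_notMem_vars hl)
  have h6 := const_of_P h5
  have h7 : coeff 0 p ≠ 0 := by
    intro h
    rw [h, C_0] at h6
    exact h2 h6
  have h8 := h1.2 (f * C (coeff 0 p)⁻¹) (by
    rw [Derivation.leibniz, hf]; simp)
  have h9 : f * C (coeff 0 p)⁻¹ * p = f := by
    rw [h6, coeff_C, if_pos rfl, mul_assoc, ← C_mul, inv_mul_cancel₀ h7, C_1, mul_one]
  rwa [h9] at h8

theorem psi_comm (hψ : Br ψ) (i j : σ) : ⁅ψ (P i), ψ (P j)⁆ = 0 := by
  rw [← hψ, P_comm, map_zero]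

/-- the key relation between the multipliers for two different indices -/
theorem mult_rel [CharZero F] [Infinite σ] [IsDomain B] (hψ : Br ψ) {i j : σ} (hij : i ≠ j)
    {f g : A F σ} {a c : B}
    (hfi : P i f = 0) (hfj : P j f = 0) (hgi : P i g = 0) (hgj : P j g = 0)
    (ha : ψ (f • (P i : W F σ)) = a • ψ (P i)) (hc : ψ (g • (P j : W F σ)) = c • ψ (P j)) :
    ψ ((f * g) • (P j : W F σ)) = (a * c) • ψ (P j) := by
  have hgX : P j (g * X i) = 0 := by rw [Derivation.leibniz, hgj, P_X_ne hij]; simp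
  obtain ⟨b, hb⟩ := step2 hψ j hgX
  -- `D_i b = c`
  have h1 : (ψ (P i)) b = c := by
    have e : ⁅(P i : W F σ), (g * X i) • (P j : W F σ)⁆ = g • (P j : W F σ) := by
      rw [lie_smul', P_comm, Derivation.leibniz, hgi, P_X_self]; simp
    have e2 := congrArg ψ e
    rw [hψ, hb, hc, lie_smulG, psi_comm hψ, smul_zero, zero_add] at e2
    exact cancelG (psiP_ne_zero ψ j) e2
  -- `D_j a = 0`
  have h2 : (ψ (P j)) a = 0 := by
    have e : ⁅(P j : W F σ), f • (P i : W F σ)⁆ = 0 := by
      rw [lie_smul', P_comm, hfj]; simp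
    have e2 := congrArg ψ e
    rw [hψ, ha, lie_smulG, psi_comm hψ, smul_zero, zero_add, map_zero] at e2
    exact cancelG (psiP_ne_zero ψ i) (by rw [e2, zero_smul])
  have e : ⁅f • (P i : W F σ), (g * X i) • (P j : W F σ)⁆ = (f * g) • (P j : W F σ) := by
    rw [smul_lie', lie_smul', P_comm, Derivation.leibniz, hgi, P_X_self]
    simp [hfj, smul_smul]
  rw [← e, hψ, ha, hb, smul_lieG, lie_smulG, psi_comm hψ, Derivation.coe_smul,
    Pi.smul_apply, h2, h1]
  simp [smul_smul]

/-- the multiplier map exists -/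
theorem exists_theta [CharZero F] [Infinite σ] [IsDomain B] (hψ : Br ψ) :
    ∃ θ : A F σ → B, ∀ (f : A F σ) (i : σ), P i f = 0 →
      ψ (f • (P i : W F σ)) = θ f • ψ (P i) := by
  classical
  have h0 : ∀ f : A F σ, ∃ a : B, ∀ i : σ, P i f = 0 →
      ψ (f • (P i : W F σ)) = a • ψ (P i) := by
    intro f
    obtain ⟨j, hj⟩ := exists_index f.vars
    have hfj : P j f = 0 := pderiv_eq_zero_of_notMem_vars hj
    obtain ⟨a, ha⟩ := step2 hψ j hfj
    refine ⟨a, fun i hi => ?_⟩
    by_cases hij : j = i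
    · subst hij; exact ha
    · have h1 : ψ ((1 : A F σ) • (P i : W F σ)) = (1 : B) • ψ (P i) := by
        rw [one_smul, one_smul]
      have := mult_rel hψ hij hfj hi (by simp) (by simp) ha h1
      simpa using this
  choose θ hθ using h0
  exact ⟨θ, hθ⟩

section
variable [CharZero F] [Infinite σ] [IsDomain B] (hψ : Br ψ) {θ : A F σ → B}
  (hθ : ∀ (f : A F σ) (i : σ), P i f = 0 → ψ (f • (P i : W F σ)) = θ f • ψ (P i))

include hψ hθ

theorem theta_unique {f : A F σ} {a : B} {i : σ} (hi : P i f = 0)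
    (h : ψ (f • (P i : W F σ)) = a • ψ (P i)) : θ f = a := by
  rw [hθ f i hi] at h
  exact cancelG (psiP_ne_zero ψ i) h

theorem theta_mul (f g : A F σ) : θ (f * g) = θ f * θ g := by
  classical
  obtain ⟨i, hi⟩ := exists_index (f.vars ∪ g.vars)
  obtain ⟨j, hj⟩ := exists_index (insert i (f.vars ∪ g.vars))
  simp only [Finset.mem_union, not_or, Finset.mem_insert] at hi hj
  have hfi : P i f = 0 := pderiv_eq_zero_of_notMem_vars hi.1
  have hgi : P i g = 0 := pderiv_eq_zero_of_notMem_vars hi.2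
  have hfj : P j f = 0 := pderiv_eq_zero_of_notMem_vars hj.2.1
  have hgj : P j g = 0 := pderiv_eq_zero_of_notMem_vars hj.2.2
  have hij : i ≠ j := fun h => hj.1 h.symm
  refine theta_unique hψ hθ (i := j) (by rw [Derivation.leibniz, hfj, hgj]; simp) ?_
  exact mult_rel hψ hij hfi hfj hgi hgj (hθ f i hfi) (hθ g j hgj)

theorem theta_add (f g : A F σ) : θ (f + g) = θ f + θ g := by
  classical
  obtain ⟨i, hi⟩ := exists_index (f.vars ∪ g.vars)
  simp only [Finset.mem_union, not_or] at hi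
  have hfi : P i f = 0 := pderiv_eq_zero_of_notMem_vars hi.1
  have hgi : P i g = 0 := pderiv_eq_zero_of_notMem_vars hi.2
  refine theta_unique hψ hθ (i := i) (by rw [map_add, hfi, hgi, add_zero]) ?_
  rw [add_smul, map_add, hθ f i hfi, hθ g i hgi, add_smul]

theorem theta_one : θ 1 = 1 := by
  obtain ⟨i⟩ : Nonempty σ := inferInstance
  refine theta_unique hψ hθ (i := i) (by simp) ?_
  rw [one_smul, one_smul]

theorem theta_zero : θ 0 = 0 := by
  obtain ⟨i⟩ : Nonempty σ := inferInstance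
  refine theta_unique hψ hθ (i := i) (by simp) ?_
  rw [zero_smul, zero_smul, map_zero]

/-- `θ` intertwines the actions of the centralisers -/
theorem theta_inter {E : W F σ} {i : σ} {f : A F σ} (hE : ⁅E, (P i : W F σ)⁆ = 0)
    (hf : P i f = 0) : ψ E (θ f) = θ (E f) := by
  have hEf : P i (E f) = 0 := by
    have := congrArg (fun D : W F σ => D f) hE
    simp only [Derivation.commutator_apply, hf, map_zero, zero_sub, Derivation.coe_zero,
      Pi.zero_apply, neg_eq_zero] at this
    exact this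
  symm
  refine theta_unique hψ hθ hEf ?_
  have e : ⁅E, f • (P i : W F σ)⁆ = E f • (P i : W F σ) := by
    rw [lie_smul', hE, smul_zero, zero_add]
  rw [← e, hψ, hθ f i hf, lie_smulG, ← hψ, hE, map_zero, smul_zero,
    zero_add]

theorem theta_P (j : σ) (f : A F σ) : ψ (P j) (θ f) = θ (P j f) := by
  obtain ⟨i, hi⟩ := exists_index f.vars
  exact theta_inter hψ hθ (P_comm j i) (pderiv_eq_zero_of_notMem_vars hi)

/-- **Key step**: `E f = 0` implies `ψ(E)(θ f) = 0`. -/
theorem key_step {E : W F σ} {f : A F σ} (hEf : E f = 0) : ψ E (θ f) = 0 := by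
  classical
  obtain ⟨i, hi⟩ := exists_index f.vars
  obtain ⟨l, hl⟩ := exists_index (insert i f.vars)
  simp only [not_or, Finset.mem_insert] at hl
  have hfi : P i f = 0 := pderiv_eq_zero_of_notMem_vars hi
  have hfl : P l f = 0 := pderiv_eq_zero_of_notMem_vars hl.2
  have hil : i ≠ l := fun h => hl.1 h.symm
  set g := θ f with hg
  set u := θ (X i) with hu
  set v := θ (X l) with hv
  set a := ψ E g with ha
  set Y : W F σ := ⁅(P i : W F σ), E⁆ with hY
  have hθ0 : θ 0 = 0 := theta_zero hψ hθ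
  have hθ1 : θ 1 = 1 := theta_one hψ hθ
  have Dig : ψ (P i) g = 0 := by rw [hg, theta_P hψ hθ, hfi, hθ0]
  have Dlg : ψ (P l) g = 0 := by rw [hg, theta_P hψ hθ, hfl, hθ0]
  have Diu : ψ (P i) u = 1 := by rw [hu, theta_P hψ hθ, P_X_self, hθ1]
  have Dlu : ψ (P l) u = 0 := by rw [hu, theta_P hψ hθ, P_X_ne hil, hθ0]
  have Div : ψ (P i) v = 0 := by rw [hv, theta_P hψ hθ, P_X_ne hil.symm, hθ0]
  have Dlv : ψ (P l) v = 1 := by rw [hv, theta_P hψ hθ, P_X_self, hθ1]
  have hYf : Y f = 0 := by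
    rw [hY, Derivation.commutator_apply, hEf, hfi, map_zero, map_zero, sub_zero]
  have hfY : ψ (f • Y) = g • ψ Y - a • ψ (P i) := by
    have e : f • Y = ⁅f • (P i : W F σ), E⁆ := by
      rw [smul_lie', hEf, zero_smul, sub_zero]
    rw [e, hψ, hθ f i hfi, smul_lieG, ← hψ]
  -- (2)
  have h2 : (ψ (P l) a) • ψ (P i) = (ψ Y g) • ψ (P l) := by
    have e : ⁅f • Y, (P l : W F σ)⁆ = ⁅Y, f • (P l : W F σ)⁆ := by
      rw [smul_lie', lie_smul', hfl, hYf]; simp
    have e2 := congrArg ψ e
    rw [hψ, hψ, hfY, hθ f l hfl, lie_smulG] at e2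
    have e3 : ⁅g • ψ Y - a • ψ (P i), ψ (P l)⁆ =
        g • ⁅ψ Y, ψ (P l)⁆ + (ψ (P l) a) • ψ (P i) := by
      have : ⁅g • ψ Y - a • ψ (P i), ψ (P l)⁆ = ⁅g • ψ Y, ψ (P l)⁆ - ⁅a • ψ (P i), ψ (P l)⁆ := by
        refine Derivation.ext fun x => ?_
        simp only [Derivation.commutator_apply, Derivation.coe_sub, Pi.sub_apply, map_sub]
        ring
      rw [this, smul_lieG, smul_lieG, psi_comm hψ, Dlg, smul_zero, zero_smul]
      refine Derivation.ext fun x => ?_
      simp
    rw [e3] at e2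
    exact add_left_cancel e2
  have h2u := congrArg (fun D : Derivation R B B => D u) h2
  have h2v := congrArg (fun D : Derivation R B B => D v) h2
  simp only [Derivation.coe_smul, Pi.smul_apply, smul_eq_mul, Diu, Dlu, Div, Dlv, mul_one,
    mul_zero] at h2u h2v
  -- (3)
  have hψZ : ψ ((X i : A F σ) • (P l : W F σ)) = u • ψ (P l) := hθ _ l (P_X_ne hil)
  have hψfZ : ψ ((f * X i : A F σ) • (P l : W F σ)) = (g * u) • ψ (P l) := by
    rw [hθ _ l (by rw [Derivation.leibniz, hfl, P_X_ne hil]; simp), theta_mul hψ hθ]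
  have e : ⁅f • Y, (X i : A F σ) • (P l : W F σ)⁆ = ⁅Y, (f * X i) • (P l : W F σ)⁆ := by
    rw [smul_lie', lie_smul', lie_smul', Derivation.leibniz, hYf]
    simp only [Derivation.coe_smul, Pi.smul_apply, hfl, smul_zero, zero_smul, sub_zero, smul_add,
      smul_smul, add_zero, smul_eq_mul, mul_zero]
  have e2 := congrArg ψ e
  rw [hψ, hψ, hfY, hψZ, hψfZ] at e2
  have e3 := congrArg (fun D : Derivation R B B => D v) e2
  simp only [Derivation.commutator_apply, Derivation.coe_smul, Pi.smul_apply, Derivation.coe_sub,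
    Pi.sub_apply, smul_eq_mul, Derivation.leibniz, map_sub, map_add, Diu, Dlu, Div, Dlv, Dlg, Dig,
    h2u, ← h2v, mul_one, mul_zero, Derivation.map_one_eq_zero, sub_zero, zero_sub, add_zero,
    zero_add, map_zero] at e3
  linear_combination (-1 : B) * e3

/-- the intertwining property for all derivations -/
theorem theta_all (E : W F σ) (f : A F σ) : ψ E (θ f) = θ (E f) := by
  classical
  set E' : W F σ := ∑ j ∈ f.vars, E (X j) • (P j : W F σ) with hE'
  have hX : ∀ k ∈ f.vars, E' (X k) = E (X k) := by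
    intro k hk
    rw [hE', sum_apply', Finset.sum_eq_single k]
    · simp
    · intro b _ hb
      rw [Derivation.coe_smul, Pi.smul_apply, P_X_ne hb.symm, smul_zero]
    · intro h; exact absurd hk h
  have h1 : (E - E') f = 0 := by
    apply MvPolynomial.derivation_eq_zero_of_forall_mem_vars
    intro k hk
    rw [Derivation.coe_sub, Pi.sub_apply, hX k hk, sub_self]
  have h2 := key_step hψ hθ h1
  rw [map_sub, Derivation.coe_sub, Pi.sub_apply, sub_eq_zero] at h2
  rw [Derivation.coe_sub, Pi.sub_apply, sub_eq_zero] at h1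
  rw [h2, h1]
  obtain ⟨i, hi⟩ := exists_index (f.vars ∪ f.vars.biUnion fun j => (E (X j)).vars)
  simp only [Finset.mem_union, not_or, Finset.mem_biUnion, not_exists, not_and] at hi
  have hE'i : ⁅E', (P i : W F σ)⁆ = 0 := by
    refine Derivation.ext fun x => ?_
    rw [Derivation.commutator_apply, hE', sum_apply', sum_apply', map_sum, ← Finset.sum_sub_distrib]
    apply Finset.sum_eq_zero
    intro j hj
    rw [Derivation.coe_smul, Pi.smul_apply, Pi.smul_apply, smul_eq_mul, smul_eq_mul,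
      Derivation.leibniz, pderiv_eq_zero_of_notMem_vars (hi.2 j hj), P_comm_apply i j]
    simp
  exact theta_inter hψ hθ hE'i (pderiv_eq_zero_of_notMem_vars hi.1)

/-- `θ` is onto -/
theorem theta_surj (b : B) : ∃ f, θ f = b := by
  obtain ⟨i⟩ : Nonempty σ := inferInstance
  refine ⟨(ψ.symm (b • ψ (P i))) (X i), ?_⟩
  rw [← theta_all hψ hθ, AddEquiv.apply_symm_apply, Derivation.coe_smul, Pi.smul_apply,
    theta_P hψ hθ, P_X_self, theta_one hψ hθ, smul_eq_mul, mul_one]

/-- `θ` is one-to-one -/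
theorem theta_inj {f g : A F σ} (h : θ f = θ g) : f = g := by
  classical
  obtain ⟨i, hi⟩ := exists_index (f.vars ∪ g.vars)
  simp only [Finset.mem_union, not_or] at hi
  have hfi : P i f = 0 := pderiv_eq_zero_of_notMem_vars hi.1
  have hgi : P i g = 0 := pderiv_eq_zero_of_notMem_vars hi.2
  have h1 : ψ (f • (P i : W F σ)) = ψ (g • (P i : W F σ)) := by
    rw [hθ f i hfi, hθ g i hgi, h]
  exact cancel (P_ne_zero i) (ψ.injective h1)

end

/-- every isomorphism of Lie rings onto the Lie ring of derivations of a domain is induced by a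
ring isomorphism -/
theorem main [CharZero F] [Infinite σ] [IsDomain B] (ψ : W F σ ≃+ Derivation R B B)
    (hψ : ∀ D E : W F σ, ψ ⁅D, E⁆ = ⁅ψ D, ψ E⁆) :
    ∃ φ : A F σ ≃+* B, ∀ (D : W F σ) (b : B), ψ D b = φ (D (φ.symm b)) := by
  have hψ' : Br ψ := hψ
  obtain ⟨θ, hθ⟩ := exists_theta hψ'
  let θr : A F σ →+* B :=
    { toFun := θ
      map_one' := theta_one hψ' hθ
      map_mul' := theta_mul hψ' hθ
      map_zero' := theta_zero hψ' hθ
      map_add' := theta_add hψ' hθ }
  have hb : Function.Bijective θr :=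
    ⟨fun f g h => theta_inj hψ' hθ h, fun b => theta_surj hψ' hθ b⟩
  refine ⟨RingEquiv.ofBijective θr hb, fun D b => ?_⟩
  obtain ⟨f, rfl⟩ := hb.2 b
  have h1 : (RingEquiv.ofBijective θr hb).symm (θr f) = f :=
    (RingEquiv.ofBijective θr hb).symm_apply_apply f
  rw [h1]
  exact theta_all hψ' hθ D f

/-- an injective ring endomorphism commuting with all derivations is the identity -/
theorem eq_id_of_comm' [CharZero F] (e : A F σ →+* A F σ)
    (he : ∀ (E : W F σ) (f : A F σ), E (e f) = e (E f)) (hne : Nonempty σ) (f : A F σ) :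
    e f = f := by
  classical
  have hC : ∀ c : F, e (C c) = C c := by
    intro c
    obtain ⟨i⟩ := hne
    have h1 : ∀ j, P j (e (C c)) = 0 := by
      intro j
      rw [he]; simp
    have h2 : e (X i) = X i + C (coeff 0 (e (X i) - X i)) := by
      have h3 : ∀ j, P j (e (X i) - X i) = 0 := by
        intro j
        rw [map_sub, he]
        by_cases h : i = j
        · subst h; rw [P_X_self]; simp
        · rw [P_X_ne h]; simp
      rw [← const_of_P h3]; ring
    have h4 := he ((C c : A F σ) • (P i : W F σ)) (X i)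
    simp only [Derivation.coe_smul, Pi.smul_apply, P_X_self, smul_eq_mul, mul_one] at h4
    rw [h2, map_add, P_X_self] at h4
    simpa using h4.symm
  have hC' : ∀ c : F, e (algebraMap F (A F σ) c) = algebraMap F (A F σ) c := by
    intro c
    rw [MvPolynomial.algebraMap_eq]; exact hC c
  let e' : A F σ →ₐ[F] A F σ := { e with commutes' := hC' }
  have h5 := eq_id_of_comm e' he
  have h6 := congrArg (fun g : A F σ →ₐ[F] A F σ => g f) h5
  exact h6

end Pool.Agent.H39.DerRing
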